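import Pool.Agent.X312.FC.Laws

/-!
# A law for the exceptional Frobenius eigenvalues on `Y × X ^ n`

Let `K` be a finite extension of `ℚ_p` with an embedding in `ℂ`, `ℓ ≠ p`, let `Y` be **any**
smooth qcqs rigid-analytic `K`-variety with a formal model with projective special fibre, and let
`X` be **any** smooth projective variety over `K` (its reduction may be arbitrarily bad). Let `g`
be a geometric Frobenius lift, `e ∈ {0, 1}` and `j` an integer. For a smooth projective variety
`Z` let

`T(Z) = gr ^ j_M (⊕_a H^(2 a + e)(Y × Z)(a))`,

cohomology with coefficients in the algebraic closure of `ℚ_ℓ`. The conjecture Q1 for `Y × Z` says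
that all eigenvalues of `g` on `T(Z)` are Weil numbers of weight `e + j`. Let `s_m` be **the
number of the different eigenvalues of** `g` **on** `T(X ^ m)` **which are not Weil numbers of
weight** `e + j`, let `Mot(Z)` be the space generated by the motivated cycles on `Z` over `K`, and
`b` the sum of the Betti numbers of `X`. For all `m, n ≥ 1` there are at least

`s_m (1 - 4 (m + 3) b ^ (m + 5) log (n + 1) / n) dim Mot(X ^ n)`

linearly independent eigenvectors of `g` in `T(X ^ n)` whose eigenvalues are not Weil numbers of
weight `e + j`. Nothing is assumed on `X` and `Y`, so if Q1 is false for one of the varieties `Y ×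
X ^ m` then it is false for all `Y × X ^ n` with large `n`, to a large extent. (The special fibre
of the product of the formal models is projective.)

The motivated correspondences over `K` between smooth projective varieties are compatible with the
action of the Galois group, hence with the monodromy filtration, and the pairing on motivated
cycles is nondegenerate by the Hodge index theorem (André).

The proof. Let `N(Z)` be an eigenspace of `g` on `T(Z)` and `P = X ^ m` with `N(P) ≠ 0`. One takes
an idempotent correspondence `g` in `Mot(P × P)` of minimal rank with `g N(P) ≠ 0` and an element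
`z ≠ 0` of `g N(P)`. A correspondence `x` with `x z = 0` has a nilpotent compression `g x g`, so
the trace of `g x` vanishes; therefore `dim N(Z)` is at least the rank of the trace form `(u, v) ↦
tr (g v u)` on the correspondences between `P` and `Z`, and for `Z = X ^ n` this rank is compared
with `dim Mot(X ^ n)` by the log-convexity of the sequence of these dimensions and by the
symmetric group. Eigenvectors for different eigenvalues are linearly independent.
-/

set_option autoImplicit false

open CategoryTheory AlgebraicGeometry

universe u v w

namespace Pool.Agent.Results.MP_0f76a4_ag.EigenvalueGapLaw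

open Pool.Agent.H914 VarClass Obj WeilCohomology
open Pool.Agent.X312.FC (CorrData IsNatural)
open Pool.Agent.X312.FM (Family IsRingFamily IsNondeg dimOn gapBound)
open Pool.Agent.X312.FK (IndepMod)
open Pool.Agent.Y133.Half (pw)

variable {k : Type u} [Field k] {𝒱 : VarClass k} {ops : CycleOps 𝒱}
  {W : WeilCohomology.{u, v} ops}

/-- The sum of the Betti numbers of `X`. -/
noncomputable def totalBetti (W : WeilCohomology.{u, v} ops) (X : 𝒱.Obj) : ℕ :=
  Module.finrank W.K (W.H X)

/-- **The gap law for eigenvalues.** In the intended use `C` is the family of the spaces generated by the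
motivated cycles over `K`, `T.M Z` is `gr ^ j_M (⊕_a H^(2 a + e)(Y × Z)(a))`, `g` is a geometric Frobenius
lift, and `B` is the set of the elements of the coefficient field which are not Weil numbers of weight
`e + j`. Here `dimOn C Z` is the dimension of `C Z`, and `pw X m` is the product of `m + 1` copies
of `X`. -/
theorem result (C : Family W) (hC : IsRingFamily C) (T : CorrData W) (hT : T.IsFunctor C)
    (g : ∀ Z : 𝒱.Obj, T.M Z → T.M Z) (hg : IsNatural C T T g) (B : Set W.K)
    (X : 𝒱.Obj) (hX : ∀ n, IsNondeg C (pw X n)) (m n : ℕ) :
    IndepMod {x : T.M (pw X n) | ∃ t ∈ B, g _ x = t • x} (⊥ : Submodule W.K (T.M (pw X n)))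
      (Set.ncard {t ∈ B | ∃ x : T.M (pw X m), x ≠ 0 ∧ g _ x = t • x} *
        gapBound (totalBetti W X) (dimOn C (pw X n)) m n) :=
  Pool.Agent.X312.FC.eig_law hC hT hg B X hX m n

end Pool.Agent.Results.MP_0f76a4_ag.EigenvalueGapLaw
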