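import Pool.Agent.X305.WM.Res

/-!
# Weight-monodromy and the action of inertia on the cohomology modulo `ℓ`

Let `X` be a smooth rigid-analytic variety over the `p`-adic field `K` with a formal model with projective special
fibre, `V` the cohomology `H^m (X_C, ℚ_ℓ)` (coefficients extended to an algebraic closure `Ω`), `F` a geometric
Frobenius lift, `N` the monodromy operator. Let `v (w)` be the number of the eigenvalues of `F` of weight `w`, with
multiplicities, and suppose that `v (m + k) = v (m - k)` for all `k` (this is necessary for weight-monodromy, and
known for `m = dim X`, by Poincaré duality).

Let `T` be the lattice `H^m (X_C, ℤ_ℓ)` modulo torsion, and `u` the action on `T` of an element of the inertia group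
that acts unipotently, `u = exp (s N)`. Let `U` be the matrix of `u` for a basis of `T`, and `Ū` its reduction
modulo `ℓ`, the matrix of `u` on `T / ℓ T`.

**Theorem.** (1) The weight-monodromy conjecture is true for `H^m (X)` if and only if for all `k` the dimension of
the kernel of `N ^ k` is at most (then equal to) the number of the eigenvalues of `F` of weights `w`,
`m - k < w ≤ m + k`.
(2) For all `k` the kernel of `(Ū - 1) ^ k` has at least this dimension.
(3) The space of the matrices over `𝔽_ℓ` which commute with `Ū` has at least the dimension
`∑ v (w) (v (w) + v (w + 1))`.
(4), (5) If equality holds in (2) for all `k`, or in (3), then the weight-monodromy conjecture is true for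
`H^m (X)`.

So it is enough to know the weights with their multiplicities and the Jordan type (or only the dimension of the
centralizer) of one element of the inertia group on the cohomology modulo `ℓ`.

The proof: in the basis of Jordan chains of generalized eigenvectors of `F` the weights of a chain of length `l` are
`w, w - 2, ..., w - 2 (l - 1)`. At most `min (k, l)` of them are in the interval of (1), and at most `min (l, l')` of
the weights of the homomorphisms between two chains are `0` or `1`. If equality holds everywhere, then the symmetry of
the weights gives that the centers of all the chains are `m`. The rank of a matrix can only drop by reduction.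
-/

set_option autoImplicit false

universe u

namespace Pool.Agent.Results.MP_0f76a4_ag.ResidualInertia

open Module Polynomial Pool.Agent.X268.WM Pool.Agent.X305.WM

/-- **Inertia modulo `ℓ` and weight-monodromy.** -/
theorem result {q : ℕ} (hq : 1 < q) (m : ℕ) {Ω : Type} [Field Ω] [CharZero Ω] [IsAlgClosed Ω]
    (W : FN.{u} Ω q)
    -- the eigenvalues of Frobenius are Weil numbers of some weights
    (hmix : W.IsMixed)
    -- there are as many of weight `m + k` as of weight `m - k`
    (hsym : SymmetricNumbers W m)
    -- a matrix of `exp (s N)` with entries in the local ring `O`, and its reduction
    {O : Type} [CommRing O] [IsLocalRing O] [Algebra O Ω] {n : ℕ} (U : Matrix (Fin n) (Fin n) O)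
    (hU : IsInertiaMatrix W U) :
    (W.IsPure m ↔ ∀ k, finrank Ω ↥(LinearMap.ker (W.N ^ k)) ≤ numberNear W m k) ∧
      (∀ k, numberNear W m k ≤ unipNullity (residual U) k) ∧
      closeNumber W ≤ centDim (residual U) ∧
      ((∀ k, unipNullity (residual U) k ≤ numberNear W m k) → W.IsPure m) ∧
      (centDim (residual U) ≤ closeNumber W → W.IsPure m) :=
  residual_inertia hq m W hmix hsym U hU

end Pool.Agent.Results.MP_0f76a4_ag.ResidualInertia
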