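import Pool.Agent.X302.MW.Rig

/-!
# MP_0f76a4_ag: weight-monodromy for rigid-analytic threefolds whose 3-forms degenerate completely
-/

set_option autoImplicit false

open Module

universe u v

namespace Pool.Agent.Results.MP_0f76a4_ag.RigidThreefolds

open Pool.Agent.Y143 Pool.Agent.X302.MW

/-- Weight-monodromy for `H^k`: every eigenvalue of a geometric Frobenius lift on `gr^M_j H^k` is a
`q`-Weil number of weight `j + k`. -/
def Pure {Ω : Type u} [Field Ω] [CharZero Ω] {Γ : Type} {n q : ℕ}
    (X : SemistableModel.{u, v} Ω Γ n q) (k : ℕ) : Prop :=
  IsMWPure q k (X.actV k X.frob) (X.N k)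

/-- **Weight-monodromy for rigid-analytic threefolds.** Let `X` be a proper smooth rigid-analytic space
of dimension three over a `p`-adic local field `K` with residue field of `q` elements, with a strictly
semistable formal model whose special fibre is projective. It need not be algebraic, and the hard
Lefschetz theorem for its cohomology is not available. Let `h = dim H^3(X, O)`. Suppose that the
irreducible components of the special fibre satisfy the Tate conjecture for divisors, that the
multiplicities of the Frobenius eigenvalues on `H^2` do not depend on the prime `ℓ` (including `p`), and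
that the graded pieces of weight zero and one of the Hyodo-Kato cohomology `H^3` satisfy
`dim gr_0 + (dim gr_1) / 2 ≥ h` (no condition if `H^3(X, O) = 0`). Then `H^k` satisfies the
weight-monodromy conjecture for all `k` except possibly `k = 2` and `k = 4`, and also for these
`k` if `dim gr_1 H^2 ≤ dim gr_3 H^2` (graded pieces of the weight filtration), for example if `H^2`
has no Frobenius eigenvalue of weight one.

Here `X` is the `ℓ`-adic theory (cohomology of the strata of the special fibre and of the geometric
generic fibre, and the weight spectral sequence of Rapoport and Zink) and `X'` is the `p`-adic theory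
(crystalline cohomology of the strata, Hyodo-Kato cohomology, weight spectral sequence of
Mokrane), with coefficients in algebraically closed fields `Ω` and `Ω'`, and `R` is the valuation
ring of `Ω'`; `A` and `A'` are the classes of divisors on the strata. The hypotheses are:

* `hC` (known, Deligne and Katz-Messing): the Frobenius eigenvalues on the strata are algebraic
  integers, and the Frobenius has the same rational characteristic polynomial on `H^2(Y^(1))`, and
  on `H^2(Y^(2))`, in the two theories.
* `hM`: an eigenvalue of weight two on the `ℓ`-adic `H^2`, which is not the product of `q` and a root of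
  unity, has at most the multiplicity of its conjugates on the Hyodo-Kato cohomology `H^2`
  (independence of `ℓ` for `H^2`).
* `hN`: on a subspace `U` of the Hyodo-Kato cohomology `H^3` stable under the Frobenius, the sum of
  the slopes is at least `dim U - h`; this holds because the Newton polygon lies above the Hodge
  polygon, by weak admissibility.
* `hW`: the condition on `gr_0` and `gr_1`, in the form `2 h ≤ dim W_0 + dim W_1`.
* `hT`: the Tate conjecture for divisors on the components. -/
theorem result {Ω : Type u} [Field Ω] [CharZero Ω] [IsAlgClosed Ω] {Γ : Type}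
    {Ω' : Type u} [Field Ω'] [CharZero Ω'] [IsAlgClosed Ω'] {Γ' : Type} {q : ℕ}
    (hq : IsPrimePow q)
    (X : SemistableModel.{u, v} Ω Γ 3 q) (A : DivisorClasses X.toSpecialFibre)
    (X' : SemistableModel.{u, v} Ω' Γ' 3 q) (A' : DivisorClasses X'.toSpecialFibre)
    (hC : AreComparable X.toSpecialFibre X'.toSpecialFibre)
    (R : ValuationSubring Ω') (hR : ((q : Ω'))⁻¹ ∉ R)
    (hM : NotMore X X' 2)
    (h : ℕ) (hN : NewtonBound X' 3 h R)
    (hW : IsCompletelyDegenerate X' 3 h)
    (hT : A.TateConj 0) :
    (∀ k : ℕ, k ≠ 2 → k ≠ 4 → Pure X k) ∧ (grDim X 2 1 ≤ grDim X 2 3 → ∀ k : ℕ, Pure X k) := by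
  obtain ⟨h1, h2⟩ := rigid_three X A (rigid_deg hq X A X' A' hC R hR hM hN hW hT)
  exact ⟨fun k hk2 hk4 => pure_of_kato X k (h1 k hk2 hk4), fun hd k => pure_of_kato X k (h2 hd k)⟩

end Pool.Agent.Results.MP_0f76a4_ag.RigidThreefolds
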