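import Pool.Agent.X305.WM.Two

/-!
# Weight-monodromy and two lifts of Frobenius

Let `V` be the cohomology `H^m(X_C, ℚ_ℓ)` with coefficients extended to an algebraic closure `Ω` of `ℚ_ℓ`, `F` the
action of a lift `g` of the geometric Frobenius element, and `N` the monodromy operator, so that `N F = q F N`. If
`σ ∈ I₁` then the lift `σ g` acts as `lift V c = exp (c N) F`, `c = t_ℓ (σ)`. For an operator `G` and a number `m` let
`atLeast G m` and `above G m` be the sums of the generalized eigenspaces of `G` for the eigenvalues which are
`q`-Weil numbers of weights `≥ m` and `> m`.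

**Theorem.** Let `c₁ ≠ c₂`.
(1) `V` satisfies the weight-monodromy conjecture in degree `m` if and only if
`V = atLeast (lift V c₁) m ⊕ above (lift V c₂) m`.
(2) In this case `V = atLeast (lift V c₁) (m - i) ⊕ above (lift V c₂) (m + i)` for all integers `i`.
(3) If all eigenvalues of `F` are Weil numbers, and `a` and `q ^ m / a` have the same multiplicities, then `V`
satisfies the weight-monodromy conjecture in degree `m` if and only if `atLeast (lift V c₁) m` and
`above (lift V c₂) m` have no common nonzero vector.

So the conjecture says that for two lifts of Frobenius which differ by an element of infinite order of the inertia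
group the two opposite weight flags are in general position. The proof decomposes `V` into Jordan chains of `N`
which are homogeneous for the generalized eigenspaces of `F`; on a chain of length `l` the operator `exp (s N)` is the
translation `f(x) ↦ f(x + s)` of polynomials of degree `< l`, and the statement becomes that a nonzero polynomial
of degree `< a + b` is not divisible by `x ^ a (x - s) ^ b`.
-/

set_option autoImplicit false

universe u

namespace Pool.Agent.Results.MP_0f76a4_ag.TwoFrobeniusLifts

open Pool.Agent.X268.WM Pool.Agent.X305.WM

/-- **The weight-monodromy property and two lifts of Frobenius.** -/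
theorem result {Ω : Type} [Field Ω] [CharZero Ω] [IsAlgClosed Ω] {q : ℕ} (hq : 1 < q)
    (W : FN.{u} Ω q) (m : ℕ) {c₁ c₂ : Ω} (hc : c₁ ≠ c₂) :
    (W.IsPure m ↔ IsCompl (atLeast q (lift W c₁) m) (above q (lift W c₂) m)) ∧
    (W.IsPure m → ∀ i : ℤ, IsCompl (atLeast q (lift W c₁) (m - i)) (above q (lift W c₂) (m + i))) ∧
    (W.IsMixed → (∀ a : Ω, a ≠ 0 → W.mult a = W.mult ((q : Ω) ^ m / a)) →
      (W.IsPure m ↔ ∀ v ∈ atLeast q (lift W c₁) m, v ∈ above q (lift W c₂) m → v = 0)) :=
  two_lifts hq W m hc

end Pool.Agent.Results.MP_0f76a4_ag.TwoFrobeniusLifts
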